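import Pool.Agent.Helper416_Poly.Final

/-!
# Polydisks are not maximizers of the capacity ratios for `κ(n) ≤ k < n` (MP_d1c05b_gt, Q1)

The capacity is given by the formula of Gutt and Hutchings, see `Pool.Agent.Helper416_Poly.Model`.
-/

noncomputable section

namespace Pool.Agent.Results.MP_d1c05b_gt.PolydiskNotMaximizer

open Pool.Agent.Helper416_Poly

/-- For `n ≥ 5` we have `κ(n) < n`, and for `1 ≤ k < n` some convex toric domain has a larger ratio than
the polydisk. -/
theorem result (n : ℕ) (hn : 5 ≤ n) :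
    IsLeast (kappaSet n) (kappa n) ∧ kappa n < n ∧
    ∀ k : ℕ, 1 ≤ k → k < n →
      ∃ X : Set (Fin n → ℂ), IsConvexToric X ∧ ratio k (Poly n) < ratio k X := by
  have h := mem_kappaSet hn
  refine ⟨⟨Nat.sInf_mem ⟨_, h⟩, fun K hK => Nat.sInf_le hK⟩, ?_, fun k hk hkn =>
    ⟨TT n k, TT_convexToric hk, ratio_TT hk hkn⟩⟩
  have h2 : kappa n ≤ n - 1 := Nat.sInf_le h
  omega

end Pool.Agent.Results.MP_d1c05b_gt.PolydiskNotMaximizer
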